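import Pool.Agent.Helper4.LD6.H5
import Pool.Agent.Helper17.LD7.GM7
import Pool.Agent.Helper18.LD7.FO2
import Pool.Agent.Helper47.LD7.TTB2
import Pool.Agent.Helper76.LD7.Num

/-!
# LD7, block WIN7: the windows of a stage
-/

set_option autoImplicit false

namespace Pool.Agent.Helper9.LD7

open Set MeasureTheory
open Pool.Agent.Helper41.LD (av var haar)
open Pool.Agent.Helper41.LD6 (hr vr lv Qs vq lev Lv NR6 Gr Wq bx)
open Pool.Agent.Helper41.LD7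
open Pool.Agent.Helper4.LD6 (vq_lo)
open Pool.Agent.Helper17.LD7 (G_meas G_bdd)
open Pool.Agent.Helper18.LD7 (fast_one fast_two)
open Pool.Agent.Helper47.LD7 (T_fast)
open Pool.Agent.Helper76.LD7 (num_K num_E)

variable {F : Pm} {K : ℕ} {a₀ ℓst a ℓ : ℝ} {u : ℕ × (Fin (F.d + 1) → ℕ)}

/-- the error of the fast times -/
private theorem small_eq (F : Pm) (K : ℕ) : (2 : ℝ) ^ (F.C₀ * F.E K) / F.Th K = (1 / 2) ^ (20 * F.E K) := by
  have h : F.C₁ * F.E K = F.C₀ * F.E K + 20 * F.E K := by unfold Pm.C₁; ring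
  unfold Pm.Th
  rw [h, pow_add, one_div, inv_pow]
  have : (2 : ℝ) ^ (F.C₀ * F.E K) ≠ 0 := by positivity
  have h2 : (2 : ℝ) ^ (20 * F.E K) ≠ 0 := by positivity
  field_simp

private theorem small_le {E : ℕ} (hE : 1 ≤ E) {v : ℝ} (hv : (1 / 2) ^ E ≤ v) :
    (1 / 2 : ℝ) ^ (11 * E) + (1 / 2) ^ (20 * E) ≤ 2 * v * (1 / 2) ^ (2 * E) ∧ (1 / 2 : ℝ) ^ (11 * E) + (1 / 2) ^ (20 * E) ≤ v := by
  have h1 : (1 / 2 : ℝ) ^ (11 * E) ≤ (1 / 2) ^ (3 * E) := pow_le_pow_of_le_one (by norm_num) (by norm_num) (by omega)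
  have h2 : (1 / 2 : ℝ) ^ (20 * E) ≤ (1 / 2) ^ (3 * E) := pow_le_pow_of_le_one (by norm_num) (by norm_num) (by omega)
  have h3 : (1 / 2 : ℝ) ^ (3 * E) = (1 / 2) ^ E * (1 / 2) ^ (2 * E) := by rw [← pow_add]; congr 1; omega
  have h0 : (0 : ℝ) < (1 / 2) ^ (2 * E) := by positivity
  have h5 : (1 / 2 : ℝ) ^ (2 * E) ≤ 1 / 2 := by
    calc (1 / 2 : ℝ) ^ (2 * E) ≤ (1 / 2) ^ 1 := pow_le_pow_of_le_one (by norm_num) (by norm_num) (by omega)
      _ = 1 / 2 := by norm_num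
  have h4 : (1 / 2 : ℝ) ^ (11 * E) + (1 / 2) ^ (20 * E) ≤ 2 * v * (1 / 2) ^ (2 * E) := by
    have := mul_le_mul_of_nonneg_right hv h0.le
    nlinarith
  refine ⟨h4, h4.trans ?_⟩
  have hv0 : 0 < v := lt_of_lt_of_le (by positivity) hv
  nlinarith

private theorem eta_H {E K : ℕ} (hK : 1 ≤ K) (hE : 4 * K ≤ E) : (1 / 2 : ℝ) ^ (2 * E) * (((2 ^ (2 * K) : ℕ) : ℝ) + 1) ^ 2 ≤ 1 := by
  have h1 : (1 / 2 : ℝ) ^ (2 * E) ≤ (1 / 2) ^ (8 * K) := pow_le_pow_of_le_one (by norm_num) (by norm_num) (by omega)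
  have h2 : (((2 ^ (2 * K) : ℕ) : ℝ) + 1) ^ 2 ≤ 2 ^ (8 * K) := by
    push_cast
    have h3 : (1 : ℝ) ≤ 2 ^ (2 * K) := one_le_pow₀ (by norm_num)
    have h4 : (2 : ℝ) ^ (2 * K) + 1 ≤ 2 ^ (4 * K) := by
      have h5 : (2 : ℝ) ^ (4 * K) = 2 ^ (2 * K) * 2 ^ (2 * K) := by rw [← pow_add]; congr 1; omega
      have h6 : (2 : ℝ) ≤ 2 ^ (2 * K) := by
        calc (2 : ℝ) = 2 ^ 1 := by norm_num
          _ ≤ 2 ^ (2 * K) := pow_le_pow_right₀ (by norm_num) (by omega)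
      rw [h5]
      nlinarith
    calc ((2 : ℝ) ^ (2 * K) + 1) ^ 2 ≤ (2 ^ (4 * K)) ^ 2 := pow_le_pow_left₀ (by positivity) h4 2
      _ = 2 ^ (8 * K) := by rw [← pow_mul]; congr 1; omega
  calc (1 / 2 : ℝ) ^ (2 * E) * (((2 ^ (2 * K) : ℕ) : ℝ) + 1) ^ 2 ≤ (1 / 2) ^ (8 * K) * 2 ^ (8 * K) :=
        mul_le_mul h1 h2 (by positivity) (by positivity)
    _ = 1 := by rw [← mul_pow]; norm_num

private theorem G_zero (u : ℕ × (Fin (F.d + 1) → ℕ)) {j : ℕ} (hj : 2 ^ (2 * K) ≤ j) (x : ℝ) : F.G K a₀ ℓst u j x = 0 := by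
  unfold Pm.G GQ
  rw [if_neg (fun h => by omega)]

theorem win (hF : F.Ok) (hK : F.Big K) (S : F.St K a₀ ℓst) (hℓ : 0 < ℓ) (h1 : a₀ ≤ a) (h2 : a + ℓ ≤ a₀ + ℓst) (hu : u ∈ F.Is K) :
    Wq (F.G K a₀ ℓst u) (2 * vq u.2) ((1 / 2) ^ (2 * F.E K)) (2 ^ (2 * K)) (F.T K a₀ ℓst ℓ) a ℓ := by
  classical
  have hK1 : 1 ≤ K := le_trans (by norm_num) (num_K hK)
  obtain ⟨hE1, -, hE3, -⟩ := num_E hF K
  have hE : 1 ≤ F.E K := by omega
  have hqs : u.2 ∈ Qs F.d K := (Finset.mem_product.1 hu).2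
  have hv : (1 / 2 : ℝ) ^ F.E K ≤ vq u.2 :=
    (pow_le_pow_of_le_one (by norm_num) (by norm_num) hE3).trans (vq_lo hqs).1
  obtain ⟨s1, s2⟩ := small_le hE hv
  have hv0 : 0 < vq u.2 := lt_of_lt_of_le (by positivity) hv
  have hTh : 0 < F.Th K := by unfold Pm.Th; positivity
  have key : ∀ j, F.T K a₀ ℓst ℓ ≤ j → F.Th K ≤ F.V K a₀ ℓst j a * ℓ := fun j hj => T_fast hF hK S hℓ h1 h2 hj
  refine ⟨hℓ, by positivity, by positivity, eta_H hK1 hE1, G_meas K a₀ ℓst hu, G_bdd K a₀ ℓst hu, fun j hj x => G_zero u hj x, ?_, ?_, ?_⟩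
  · intro j hj
    have h := fast_one hF hK S hℓ h1 h2 (le_refl a) (by linarith) (le_refl _) hTh (key j hj) hu
    refine h.trans ?_
    have e1 : (2 : ℝ) ^ (F.C₀ * F.E K) * ℓ / F.Th K = (1 / 2) ^ (20 * F.E K) * ℓ := by rw [← small_eq F K]; ring
    rw [e1]
    calc (1 / 2 : ℝ) ^ (11 * F.E K) * (a + ℓ - a) + (1 / 2) ^ (20 * F.E K) * ℓ =
          ((1 / 2 : ℝ) ^ (11 * F.E K) + (1 / 2) ^ (20 * F.E K)) * ℓ := by ring
      _ ≤ 2 * vq u.2 * (1 / 2) ^ (2 * F.E K) * ℓ := mul_le_mul_of_nonneg_right s1 hℓ.le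
  · intro j hj
    by_cases hjH : j < 2 ^ (2 * K)
    · have h := fast_two hF hK S hℓ h1 h2 hTh (key j hj) (key j hj) hu hu hjH hjH
      rw [small_eq] at h
      have h3 := mul_le_mul_of_nonneg_right s2 hℓ.le
      have h5 : 0 ≤ vq u.2 * ℓ := by positivity
      by_cases hc : (F.n₀ K a₀ ℓst + j) % F.Q = u.1
      · rw [if_pos ⟨rfl, rfl, hc⟩] at h
        have h' := (abs_le.1 h).2
        linarith
      · rw [if_neg (fun h => hc h.2.2)] at h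
        have h' := (abs_le.1 h).2
        linarith
    · have : ∀ x, F.G K a₀ ℓst u j x * F.G K a₀ ℓst u j x = 0 := fun x => by rw [G_zero u (by omega) x, zero_mul]
      simp only [this]
      simp only [intervalIntegral.integral_zero]
      positivity
  · intro j₁ j₂ hj hjj
    by_cases hjH : j₂ < 2 ^ (2 * K)
    · have h := fast_two hF hK S hℓ h1 h2 hTh (key j₁ hj) (key j₂ (by omega)) hu hu (by omega) hjH
      rw [if_neg (fun h => hjj.ne h.1), small_eq, mul_zero, sub_zero] at h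
      exact h.trans (mul_le_mul_of_nonneg_right s1 hℓ.le)
    · have : ∀ x, F.G K a₀ ℓst u j₁ x * F.G K a₀ ℓst u j₂ x = 0 := fun x => by rw [G_zero u (j := j₂) (by omega) x, mul_zero]
      simp only [this]
      simp only [intervalIntegral.integral_zero, abs_zero]
      positivity

end Pool.Agent.Helper9.LD7
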